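import Pool.Agent.H242.GX.Stm6
import Pool.Agent.H242.GX.Fin6

set_option autoImplicit false

open Set Filter Topology
open scoped ContDiff

namespace Pool.Agent.H242.GU

open Pool.Agent.H242.GX

theorem gu_EVN (hMOD : S_MOD) : S_EVN := by
  intro X Z hW κ hκ
  obtain ⟨X', Z', hW', ⟨δ, hδ, hX'⟩, h1, h2, h3, -⟩ := hMOD X Z hW κ hκ
  refine ⟨X', Z', hW', fun H hI θ => ?_, h1, h2, h3⟩
  obtain ⟨R, hR, hI'⟩ := hI θ
  obtain ⟨r, hr, hrR, hs⟩ := shrink 1 (-(κ θ) / 2) (min R δ) one_pos (lt_min hR hδ)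
  refine ⟨r, hr, fun t ht => ?_⟩
  obtain ⟨a1, a2⟩ := hs t ht
  obtain ⟨b1, -⟩ := hs (-t) (by rwa [abs_neg])
  have hd : |t| < δ := ht.trans_le (hrR.trans (min_le_right _ _))
  obtain ⟨c1, c2⟩ := hX' θ t hd
  obtain ⟨d1, d2⟩ := hX' θ (-t) (by rwa [abs_neg])
  have hsb : |t / (1 - κ θ * t / 2)| < R := by
    have h4 : -(1 * t) / (1 + -(κ θ) / 2 * t) = -(t / (1 - κ θ * t / 2)) := by
      rw [one_mul, neg_div]
      congr 2
      ring
    rw [h4, abs_neg] at a2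
    exact a2.trans_le (min_le_left _ _)
  obtain ⟨e1, e2⟩ := hI' _ hsb
  have h5 : -(t / (1 - κ θ * t / 2)) / (1 + κ θ * (t / (1 - κ θ * t / 2))) = -t / (1 - κ θ * -t / 2) := by
    have h6 : 1 + κ θ * (t / (1 - κ θ * t / 2)) = (1 - κ θ * -t / 2) / (1 - κ θ * t / 2) := by
      rw [eq_div_iff c1.ne', add_mul, one_mul, mul_assoc, div_mul_cancel₀ _ c1.ne']
      ring
    rw [h6, ← neg_div, div_div_div_cancel_right₀ c1.ne']
  rw [h5, ← c2, ← d2] at e2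
  show H ((X' (θ, t)).1, (X' (θ, t)).2 ^ 2) - H ((X' (θ, -t)).1, (X' (θ, -t)).2 ^ 2) = 0
  rw [e2, sub_self]

end Pool.Agent.H242.GU
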